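import Mathlib
import Pool.Agent.Lib.MP_6f6b5b_nt.Defs
import Pool.Agent.Lib.MP_6f6b5b_nt.NotIso

/-!
`MP_6f6b5b_nt`, Q1: the totally real cubic field `K = ℚ(ζ)`, `ζ^3 - 19 ζ^2 - 29 ζ + 25 = 0` (of
discriminant `1318132`) has property (T) and lies in neither of the two families.

Sketch: (T) says that all vertices of the convex hull of the totally positive integers are units; the
six neighbours of the vertex `1` are the units `ε₁^{±1}, ε₂^{±1}, (ε₁ε₂)^{±1}` with `ε₁ = ζ + 2`,
`ε₂ = ζ² - 20 ζ + 12`.  The ring of integers is `ℤ[ζ]` and `2` is totally ramified, while `2` is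
unramified in every field of the two families.
-/

open Polynomial NumberField Pool.Agent.Lib.MP_6f6b5b_nt

namespace Pool.Agent.Results.MP_6f6b5b_nt.CubicCounterexample

/-- There is a totally real cubic field, namely `ℚ[x]/(x^3 - 19 x^2 - 29 x + 25)`, that has
property (T) and is isomorphic to no `K_{r,s}` (`1 ≤ r ≤ s - 2`) and to no `K_n` (`n > 0`). -/
theorem result : ∃ (K : Type) (_ : Field K) (_ : NumberField K),
    Nonempty (K ≃+* AdjoinRoot (X ^ 3 - 19 * X ^ 2 - 29 * X + 25 : ℚ[X])) ∧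
    NumberField.IsTotallyReal K ∧ Module.finrank ℚ K = 3 ∧ PropertyT K ∧
    (∀ r s : ℤ, 1 ≤ r → r ≤ s - 2 → ¬ Nonempty (K ≃+* AdjoinRoot (polyRS r s))) ∧
    (∀ n : ℤ, 0 < n → ¬ Nonempty (K ≃+* AdjoinRoot (polyN n))) :=
  ⟨KK, inferInstance, inferInstance, ⟨RingEquiv.refl _⟩, inferInstance, finrank_KK, propertyT,
    fun _ _ hr hrs => not_iso_rs hr hrs, fun n _ => not_iso_n n⟩

end Pool.Agent.Results.MP_6f6b5b_nt.CubicCounterexample
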